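import Pool.Agent.H95.AVR.CNF

/-!
# AVR, module CNB: the number of matrices
-/

set_option autoImplicit false

namespace Pool.AVR

open Polynomial Matrix

/-- the six entries of a symmetric matrix -/
def h99six {F : Type} [Field F] (B : Matrix (Fin 3) (Fin 3) F[X]) :
    F[X] × F[X] × F[X] × F[X] × F[X] × F[X] :=
  (B 0 0, B 0 1, B 0 2, B 1 1, B 1 2, B 2 2)

theorem h99six_inj {F : Type} [Field F] (B B' : Matrix (Fin 3) (Fin 3) F[X]) (h : Bᵀ = B)
    (h' : B'ᵀ = B') (he : h99six B = h99six B') : B = B' := by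
  have e1 : ∀ i j, B j i = B i j := fun i j => congrFun (congrFun h i) j
  have e2 : ∀ i j, B' j i = B' i j := fun i j => congrFun (congrFun h' i) j
  simp only [h99six, Prod.mk.injEq] at he
  obtain ⟨h0, h1, h2, h3, h4, h5⟩ := he
  refine Matrix.ext fun i j => ?_
  fin_cases i <;> fin_cases j <;>
    simp only [Fin.zero_eta, Fin.mk_one, Fin.reduceFinMk, Fin.isValue]
  · exact h0
  · exact h1
  · exact h2
  · rw [e1 0 1, e2 0 1, h1]
  · exact h3
  · exact h4
  · rw [e1 0 2, e2 0 2, h2]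
  · rw [e1 1 2, e2 1 2, h4]
  · exact h5

theorem cnb_thm : CNBStmt := by
  intro F _ _ n m hmn
  set T : Set (F[X] × F[X] × F[X] × F[X] × F[X] × F[X]) :=
    H95D F (2 * n - 2 * m) ×ˢ (H95D F (2 * n - m) ×ˢ (H95D F (2 * n) ×ˢ (H95D F (2 * n) ×ˢ
      (H95D F (2 * n + m) ×ˢ H95D F (2 * n + 2 * m))))) with hT
  have hTf : T.Finite := (h95D_finite F _).prod ((h95D_finite F _).prod ((h95D_finite F _).prod
    ((h95D_finite F _).prod ((h95D_finite F _).prod (h95D_finite F _)))))
  have hTc : T.ncard = Nat.card F ^ (12 * n + 6) := by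
    rw [hT, Set.ncard_prod, Set.ncard_prod, Set.ncard_prod, Set.ncard_prod, Set.ncard_prod]
    simp only [h95D_ncard, ← pow_add]
    congr 1
    omega
  have hmap : ∀ B ∈ {B : Matrix (Fin 3) (Fin 3) F[X] | Bd n m B}, h99six B ∈ T := by
    rintro B ⟨-, hB⟩
    have key : ∀ i j (N : ℕ), (2 * (n : ℤ) + dd m i + dd m j = N) → B i j ∈ H95D F N := by
      intro i j N hN
      show (B i j).natDegree ≤ N
      by_cases h0 : B i j = 0
      · rw [h0, natDegree_zero]; exact Nat.zero_le _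
      · have := hB i j h0
        rw [hN] at this
        exact_mod_cast this
    refine ⟨key 0 0 _ ?_, key 0 1 _ ?_, key 0 2 _ ?_, key 1 1 _ ?_, key 1 2 _ ?_, key 2 2 _ ?_⟩ <;>
      simp only [dd, Matrix.cons_val_zero, Matrix.cons_val_one, Matrix.cons_val] <;> push_cast <;>
      omega
  have hinj : Set.InjOn h99six {B : Matrix (Fin 3) (Fin 3) F[X] | Bd n m B} := by
    intro B hB B' hB' he
    exact h99six_inj B B' hB.1 hB'.1 he
  have hfin : {B : Matrix (Fin 3) (Fin 3) F[X] | Bd n m B}.Finite := by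
    refine Set.Finite.of_finite_image (hTf.subset ?_) hinj
    rintro _ ⟨B, hB, rfl⟩
    exact hmap B hB
  refine ⟨hfin, ?_⟩
  rw [← hTc]
  exact Set.ncard_le_ncard_of_injOn h99six hmap hinj hTf

end Pool.AVR
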