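import Pool.Agent.H95.AVR.CNF

/-!
# AVR, module FIN: the counting inequality
-/

set_option autoImplicit false

namespace Pool.AVR

open Polynomial Matrix

namespace FINaux

theorem AA_mul_self (R : Type) [CommRing R] : AA R * AA R = 1 := by
  refine Matrix.ext fun i j => ?_
  fin_cases i <;> fin_cases j <;> simp [AA, Matrix.mul_apply, Fin.sum_univ_three]

theorem AA_map {R S : Type} [CommRing R] [CommRing S] (φ : R →+* S) :
    (AA R).map φ = AA S := by
  refine Matrix.ext fun i j => ?_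
  fin_cases i <;> fin_cases j <;> simp [AA]

/-- the inverse of an isometry -/
theorem inv_left {R : Type} [CommRing R] {g : Matrix (Fin 3) (Fin 3) R}
    (h : gᵀ * AA R * g = AA R) : AA R * gᵀ * AA R * g = 1 := by
  rw [Matrix.mul_assoc, Matrix.mul_assoc, ← Matrix.mul_assoc gᵀ, h, AA_mul_self]

theorem inv_right {R : Type} [CommRing R] {g : Matrix (Fin 3) (Fin 3) R}
    (h : gᵀ * AA R * g = AA R) : g * (AA R * gᵀ * AA R) = 1 :=
  mul_eq_one_comm.mp (inv_left h)

theorem charpoly_conj {R : Type} [CommRing R] {g B : Matrix (Fin 3) (Fin 3) R}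
    (h : gᵀ * AA R * g = AA R) : (AA R * (gᵀ * B * g)).charpoly = (AA R * B).charpoly := by
  have e1 : AA R * (gᵀ * B * g) = (AA R * gᵀ * AA R) * ((AA R * B) * g) := by
    have : AA R * gᵀ * AA R * (AA R * B * g) = AA R * gᵀ * (AA R * AA R) * (B * g) := by
      simp only [Matrix.mul_assoc]
    rw [this, AA_mul_self, Matrix.mul_one]
    simp only [Matrix.mul_assoc]
  rw [e1, Matrix.charpoly_mul_comm, Matrix.mul_assoc, inv_right h, Matrix.mul_one]

theorem stab_of {R : Type} [CommRing R] {g g₀ B : Matrix (Fin 3) (Fin 3) R}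
    (h : gᵀ * AA R * g = AA R) (h₀ : g₀ᵀ * AA R * g₀ = AA R) (hd : g.det = 1) (hd₀ : g₀.det = 1)
    (he : gᵀ * B * g = g₀ᵀ * B * g₀) :
    (g * (AA R * g₀ᵀ * AA R))ᵀ * AA R * (g * (AA R * g₀ᵀ * AA R)) = AA R ∧
    (g * (AA R * g₀ᵀ * AA R))ᵀ * B * (g * (AA R * g₀ᵀ * AA R)) = B ∧
    (g * (AA R * g₀ᵀ * AA R)).det = 1 := by
  set k := AA R * g₀ᵀ * AA R with hk
  have hr : g₀ * k = 1 := inv_right h₀
  clear_value k
  have gen : ∀ M : Matrix (Fin 3) (Fin 3) R, gᵀ * M * g = g₀ᵀ * M * g₀ →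
      (g * k)ᵀ * M * (g * k) = M := by
    intro M hM
    calc (g * k)ᵀ * M * (g * k) = kᵀ * (gᵀ * M * g) * k := by
          rw [Matrix.transpose_mul]; simp only [Matrix.mul_assoc]
      _ = kᵀ * (g₀ᵀ * M * g₀) * k := by rw [hM]
      _ = (g₀ * k)ᵀ * M * (g₀ * k) := by
          rw [Matrix.transpose_mul]; simp only [Matrix.mul_assoc]
      _ = M := by rw [hr, Matrix.transpose_one, Matrix.one_mul, Matrix.mul_one]
  refine ⟨gen _ (h.trans h₀.symm), gen _ he, ?_⟩
  have : g₀.det * k.det = 1 := by rw [← Matrix.det_mul, hr, Matrix.det_one]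
  rw [hd₀, one_mul] at this
  rw [Matrix.det_mul, hd, this, one_mul]

theorem stab_inj {R : Type} [CommRing R] {g g' g₀ : Matrix (Fin 3) (Fin 3) R}
    (h₀ : g₀ᵀ * AA R * g₀ = AA R)
    (he : g * (AA R * g₀ᵀ * AA R) = g' * (AA R * g₀ᵀ * AA R)) : g = g' := by
  have := congrArg (fun M => M * g₀) he
  simp only [Matrix.mul_assoc] at this
  have h1 := inv_left h₀
  simp only [Matrix.mul_assoc] at h1
  rw [h1, Matrix.mul_one, Matrix.mul_one] at this
  exact this

theorem cub_inj {R : Type} [CommRing R] {a b c a' b' c' : R}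
    (h : cub a b c = cub a' b' c') : a = a' ∧ b = b' ∧ c = c' := by
  unfold cub at h
  have h2 := congrArg (fun p => coeff p 2) h
  have h1 := congrArg (fun p => coeff p 1) h
  have h0 := congrArg (fun p => coeff p 0) h
  simp [coeff_X, coeff_C] at h0 h1 h2
  exact ⟨h2, h1, h0⟩

theorem cub_map {R S : Type} [CommRing R] [CommRing S] (φ : R →+* S) (a b c : R) :
    (cub a b c).map φ = cub (φ a) (φ b) (φ c) := by
  simp [cub]

theorem onC_of {K : Type} [Field K] {a b c x y : K} (h : (E a b c).toAffine.Nonsingular x y) :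
    OnC a b c x y := by
  have := (WeierstrassCurve.Affine.equation_iff _ _).mp h.1
  simp only [E] at this
  unfold OnC
  linear_combination this

/-- the characteristic polynomial over `F[t]` -/
theorem charP {F : Type} [Field F] (hCHP : CHPStmt) (f : F[X] × F[X] × F[X]) (x y : RatFunc F)
    (B : Matrix (Fin 3) (Fin 3) F[X])
    (h : OnC (algebraMap F[X] (RatFunc F) f.1) (algebraMap F[X] (RatFunc F) f.2.1)
      (algebraMap F[X] (RatFunc F) f.2.2) x y) (hy : y ≠ 0)
    (hR : Rep (algebraMap F[X] (RatFunc F) f.1) (algebraMap F[X] (RatFunc F) f.2.1)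
        (algebraMap F[X] (RatFunc F) f.2.2) x y (AA (RatFunc F))
        (B.map (algebraMap F[X] (RatFunc F)))) :
    (AA F[X] * B).charpoly = cubP f := by
  have h1 := hCHP (RatFunc F) _ _ _ x y h hy _ hR
  have hinj : Function.Injective (algebraMap F[X] (RatFunc F)) := RatFunc.algebraMap_injective F
  apply Polynomial.map_injective _ hinj
  rw [← Matrix.charpoly_map, cubP, cub_map, ← h1, Matrix.map_mul]
  congr 2
  exact AA_map _

end FINaux

open FINaux

open Classical in
theorem fin_thm (hKEY : KEYStmt) (hCHP : CHPStmt) (hCHB : CHBStmt) (hINJ : INJStmt)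
    (hHOM : HOMStmt) (hISO : ISOStmt) (hKER : KERStmt) (hACT : ACTStmt) (hGRP : GRPStmt)
    (hCNB : CNBStmt) : FINStmt := by
  intro F _ _ h2 n k S hS hsep hstab
  have h2K : (2 : RatFunc F) ≠ 0 := by
    have : (2 : RatFunc F) = algebraMap F[X] (RatFunc F) 2 := (map_ofNat _ 2).symm
    rw [this]
    intro h
    have h3 := (map_eq_zero_iff _ (RatFunc.algebraMap_injective F)).mp h
    have h4 : (C (2 : F) : F[X]) = 0 := by rw [← h3]; exact map_ofNat C 2
    exact h2 (by simpa using h4)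
  set T : (f : F[X] × F[X] × F[X]) → Set (Mod2 (EK f)) := fun f =>
    {ξ : Mod2 (EK f) | ξ ≠ 0 ∧ ∃ (x y : RatFunc F)
      (h : (E (algebraMap F[X] (RatFunc F) f.1) (algebraMap F[X] (RatFunc F) f.2.1)
        (algebraMap F[X] (RatFunc F) f.2.2)).toAffine.Nonsingular x y), y ≠ 0 ∧
        QuotientAddGroup.mk (WeierstrassCurve.Affine.Point.some x y h) = ξ} with hT
  have mk_zero : ∀ (f : F[X] × F[X] × F[X]) (P Q : EK f), P = Q + Q →
      (QuotientAddGroup.mk P : Mod2 (EK f)) = 0 := by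
    intro f P Q h
    rw [QuotientAddGroup.eq_zero_iff]
    exact ⟨Q, by simp [h, two_nsmul]⟩
  have mk_eq : ∀ (f : F[X] × F[X] × F[X]) (P P' Q : EK f), P - P' = Q + Q →
      (QuotientAddGroup.mk P : Mod2 (EK f)) = QuotientAddGroup.mk P' := by
    intro f P P' Q h
    have := mk_zero f _ _ h
    rw [QuotientAddGroup.mk_sub, sub_eq_zero] at this
    exact this
  -- the choice of representatives
  have key : ∀ p : (Σ f : ↥S, ↥(T f.1)), ∃ (m : ℕ) (B : Matrix (Fin 3) (Fin 3) F[X]) (x y : RatFunc F)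
      (h : (E (algebraMap F[X] (RatFunc F) p.1.1.1) (algebraMap F[X] (RatFunc F) p.1.1.2.1)
        (algebraMap F[X] (RatFunc F) p.1.1.2.2)).toAffine.Nonsingular x y),
      m ≤ n ∧ Bd n m B ∧ y ≠ 0 ∧
      QuotientAddGroup.mk (WeierstrassCurve.Affine.Point.some x y h) = p.2.1 ∧
      Rep (algebraMap F[X] (RatFunc F) p.1.1.1) (algebraMap F[X] (RatFunc F) p.1.1.2.1)
        (algebraMap F[X] (RatFunc F) p.1.1.2.2) x y (AA (RatFunc F))
        (B.map (algebraMap F[X] (RatFunc F))) := by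
    rintro ⟨⟨f, hf⟩, ⟨ξ, hξ0, x, y, h, hy, hmk⟩⟩
    obtain ⟨m, B, hBd, hR⟩ := hKEY F h2 n f (hS hf) x y (onC_of h) hy
    refine ⟨m, B, x, y, h, ?_, hBd, hy, hmk, hR⟩
    by_contra hmn
    push Not at hmn
    have hB0 : B 0 0 = 0 := by
      by_contra h0
      have := hBd.2 0 0 h0
      simp only [dd, Matrix.cons_val_zero] at this
      omega
    obtain ⟨u, hu⟩ := hISO (RatFunc F) h2K _ _ _ x y (hsep f hf) (onC_of h) hy _ hR
      (by rw [Matrix.map_apply, hB0, map_zero])
    obtain ⟨Q, hQ⟩ := hKER (RatFunc F) h2K _ _ _ (hsep f hf) x y h u hu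
    exact hξ0 (hmk ▸ mk_zero f _ Q hQ)
  choose mm BB xx yy hns hmn hBd hy hmk hRep using key
  have hch : ∀ p : (Σ f : ↥S, ↥(T f.1)), (AA F[X] * BB p).charpoly = cubP p.1.1 := fun p =>
    charP hCHP p.1.1 (xx p) (yy p) (BB p) (onC_of (hns p)) (hy p) (hRep p)
  -- uniqueness
  have core : ∀ (p p' : (Σ f : ↥S, ↥(T f.1))) (g g' : Matrix (Fin 3) (Fin 3) F[X]),
      gᵀ * AA F[X] * g = AA F[X] → g'ᵀ * AA F[X] * g' = AA F[X] →
      gᵀ * BB p * g = g'ᵀ * BB p' * g' → p = p' := by
    intro p p' g g' hg hg' he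
    have hff : p.1.1 = p'.1.1 := by
      have h1 := (charpoly_conj (B := BB p) hg).trans (hch p)
      have h3 := (charpoly_conj (B := BB p') hg').trans (hch p')
      rw [he, h3] at h1
      have := cub_inj h1
      exact Prod.ext this.1.symm (Prod.ext this.2.1.symm this.2.2.symm)
    have hR1 : ∀ (q : (Σ f : ↥S, ↥(T f.1))) (l : Matrix (Fin 3) (Fin 3) F[X]),
        lᵀ * AA F[X] * l = AA F[X] →
        Rep (algebraMap F[X] (RatFunc F) q.1.1.1) (algebraMap F[X] (RatFunc F) q.1.1.2.1)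
          (algebraMap F[X] (RatFunc F) q.1.1.2.2) (xx q) (yy q) (AA (RatFunc F))
          ((lᵀ * BB q * l).map (algebraMap F[X] (RatFunc F))) := by
      intro q l hl
      have := hCHB (RatFunc F) _ _ _ _ _ _ _ (l.map (algebraMap F[X] (RatFunc F))) (hRep q)
      have e1 : (l.map (algebraMap F[X] (RatFunc F)))ᵀ * AA (RatFunc F) *
          (l.map (algebraMap F[X] (RatFunc F))) = AA (RatFunc F) := by
        rw [← AA_map (algebraMap F[X] (RatFunc F)), ← Matrix.transpose_map]
        rw [← Matrix.map_mul, ← Matrix.map_mul, hl]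
      have e2 : (l.map (algebraMap F[X] (RatFunc F)))ᵀ *
          (BB q).map (algebraMap F[X] (RatFunc F)) * (l.map (algebraMap F[X] (RatFunc F))) =
          (lᵀ * BB q * l).map (algebraMap F[X] (RatFunc F)) := by
        rw [← Matrix.transpose_map, ← Matrix.map_mul, ← Matrix.map_mul]
      rw [e1, e2] at this
      exact this
    have r1 := hR1 p g hg
    have r2 := hR1 p' g' hg'
    have s1 := hmk p
    have s2 := hmk p'
    have y1 := hy p
    have y2 := hy p'
    rw [he] at r1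
    generalize hns p = n1 at s1
    generalize hns p' = n2 at s2
    generalize xx p = x1 at *
    generalize xx p' = x2 at *
    generalize yy p = z1 at *
    generalize yy p' = z2 at *
    generalize g'ᵀ * BB p' * g' = B at *
    clear he hR1
    obtain ⟨⟨f, hf⟩, ⟨ξ, hξ⟩⟩ := p
    obtain ⟨⟨f', hf'⟩, ⟨ξ', hξ'⟩⟩ := p'
    simp only at hff
    subst hff
    obtain ⟨u, hu⟩ := hINJ (RatFunc F) h2K _ _ _ x1 z1 x2 z2 (onC_of n1) (onC_of n2) y1 y2 _ r1 r2
    obtain ⟨Q, hQ⟩ := hHOM (RatFunc F) h2K _ _ _ (hsep f hf) x1 z1 n1 x2 z2 n2 u y1 y2 hu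
    have hxx : ξ = ξ' := by
      have := mk_eq f _ _ Q hQ
      simp only at s1 s2
      rw [← s1, ← s2]
      exact this
    subst hxx
    rfl
  have hone : (1 : Matrix (Fin 3) (Fin 3) F[X])ᵀ * AA F[X] * 1 = AA F[X] := by simp
  have BBinj : Function.Injective BB := by
    intro p p' h
    exact core p p' 1 1 hone hone (by simp [h])
  have hUfin : (⋃ m ∈ Finset.range (n + 1),
      {B : Matrix (Fin 3) (Fin 3) F[X] | Bd n m B}).Finite := by
    refine Set.Finite.biUnion (Finset.finite_toSet _) ?_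
    intro m hm
    have : m ≤ n := by
      have := Finset.mem_range.mp (Finset.mem_coe.mp hm)
      omega
    exact (hCNB F n m this).1
  have hPfin : Finite (Σ f : ↥S, ↥(T f.1)) := by
    have hmem : ∀ p, BB p ∈ (⋃ m ∈ Finset.range (n + 1),
        {B : Matrix (Fin 3) (Fin 3) F[X] | Bd n m B}) := by
      intro p
      simp only [Set.mem_iUnion]
      exact ⟨mm p, Finset.mem_range.mpr (Nat.lt_succ_of_le (hmn p)), hBd p⟩
    have := hUfin.to_subtype
    exact Finite.of_injective (fun p => (⟨BB p, hmem p⟩ : (⋃ m ∈ Finset.range (n + 1),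
        {B : Matrix (Fin 3) (Fin 3) F[X] | Bd n m B} : Set _))) (fun p p' h => BBinj (by
          simpa using h))
  have hTfin : ∀ f ∈ S, (T f).Finite := by
    intro f hf
    have : Function.Injective (fun ξ : ↥(T f) => (⟨⟨f, hf⟩, ξ⟩ : (Σ f : ↥S, ↥(T f.1)))) := by
      intro ξ ξ' h
      simpa using h
    have hf2 : Finite ↥(T f) := Finite.of_injective _ this
    exact Set.toFinite (T f)
  refine ⟨hTfin, ?_⟩
  have hSf : S.Finite := by
    have : (Fam F n).Finite := by
      rw [h95_fam]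
      exact (h95D_finite F _).prod ((h95D_finite F _).prod (h95D_finite F _))
    exact this.subset hS
  have : Fintype ↥S := hSf.fintype
  have : ∀ f : ↥S, Fintype ↥(T f.1) := fun f => (hTfin f.1 f.2).fintype
  have hsum : ∑ᶠ f ∈ S, ((T f).ncard : ℝ) = (Fintype.card (Σ f : ↥S, ↥(T f.1)) : ℝ) := by
    rw [← finsum_set_coe_eq_finsum_mem S, finsum_eq_sum_of_fintype, Fintype.card_sigma]
    push_cast
    refine Finset.sum_congr rfl fun f _ => ?_
    rw [← Nat.card_coe_set_eq, Nat.card_eq_fintype_card]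
  have hGfin : ∀ m, (GG F m).Finite := (hGRP F h2).1
  have hG1 : ∀ m, (1 : Matrix (Fin 3) (Fin 3) F[X]) ∈ GG F m := by
    intro m
    refine ⟨hone, Matrix.det_one, ?_⟩
    intro i j h
    by_cases hij : i = j
    · subst hij
      simp
    · exact absurd (Matrix.one_apply_ne hij) h
  have hcount : ∀ m ∈ Finset.range (n + 1),
      ((Finset.univ.filter (fun p : (Σ f : ↥S, ↥(T f.1)) => mm p = m)).card : ℝ) ≤
        k * (({B : Matrix (Fin 3) (Fin 3) F[X] | Bd n m B ∧
          ∃ f ∈ S, (AA F[X] * B).charpoly = cubP f}.ncard : ℝ) / (GG F m).ncard) := by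
    intro m hm
    have hmn' : m ≤ n := Nat.lt_succ_iff.mp (Finset.mem_range.mp hm)
    set NB : Set (Matrix (Fin 3) (Fin 3) F[X]) := {B : Matrix (Fin 3) (Fin 3) F[X] | Bd n m B ∧
          ∃ f ∈ S, (AA F[X] * B).charpoly = cubP f} with hNB
    have hNBf : NB.Finite := (hCNB F n m hmn').1.subset fun B hB => hB.1
    set Pm := Finset.univ.filter (fun p : (Σ f : ↥S, ↥(T f.1)) => mm p = m) with hPm
    set Gm := (hGfin m).toFinset with hGm
    have hGc : (GG F m).ncard = Gm.card := Set.ncard_eq_toFinset_card _ (hGfin m)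
    have hGpos : 0 < Gm.card := by
      refine Finset.card_pos.mpr ⟨1, ?_⟩
      rw [hGm, Set.Finite.mem_toFinset]
      exact hG1 m
    set φ : (Σ f : ↥S, ↥(T f.1)) × Matrix (Fin 3) (Fin 3) F[X] → Matrix (Fin 3) (Fin 3) F[X] :=
      fun z => z.2ᵀ * BB z.1 * z.2 with hφ
    have hcard : (Pm ×ˢ Gm).card ≤ k * ((Pm ×ˢ Gm).image φ).card := by
      refine Finset.card_le_mul_card_image _ _ ?_
      intro a ha
      obtain ⟨⟨p₀, g₀⟩, hz₀, rfl⟩ := Finset.mem_image.mp ha
      rw [Finset.mem_product] at hz₀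
      have hg₀ : g₀ ∈ GG F m := (Set.Finite.mem_toFinset _).mp hz₀.2
      obtain ⟨hfin, hle⟩ := hstab (BB p₀) (hBd p₀).1 ⟨p₀.1.1, p₀.1.2, hch p₀⟩
      refine le_trans ?_ hle
      rw [Set.ncard_eq_toFinset_card _ hfin]
      refine Finset.card_le_card_of_injOn (fun z => z.2 * (AA F[X] * g₀ᵀ * AA F[X])) ?_ ?_
      · rintro ⟨p, g⟩ hz
        have hz' := Finset.mem_filter.mp (Finset.mem_coe.mp hz)
        have hz1 := Finset.mem_product.mp hz'.1
        have hg : g ∈ GG F m := (Set.Finite.mem_toFinset _).mp hz1.2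
        have hzz : gᵀ * BB p * g = g₀ᵀ * BB p₀ * g₀ := hz'.2
        have hpp : p = p₀ := core p p₀ g g₀ hg.1 hg₀.1 hzz
        subst hpp
        rw [Finset.mem_coe, Set.Finite.mem_toFinset]
        exact stab_of hg.1 hg₀.1 hg.2.1 hg₀.2.1 hzz
      · rintro ⟨p, g⟩ hz ⟨p', g'⟩ hz' he
        have hz1 := Finset.mem_filter.mp (Finset.mem_coe.mp hz)
        have hz1' := Finset.mem_filter.mp (Finset.mem_coe.mp hz')
        have hz2 := Finset.mem_product.mp hz1.1
        have hz2' := Finset.mem_product.mp hz1'.1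
        have hg : g ∈ GG F m := (Set.Finite.mem_toFinset _).mp hz2.2
        have hg' : g' ∈ GG F m := (Set.Finite.mem_toFinset _).mp hz2'.2
        have hzz : gᵀ * BB p * g = g₀ᵀ * BB p₀ * g₀ := hz1.2
        have hzz' : g'ᵀ * BB p' * g' = g₀ᵀ * BB p₀ * g₀ := hz1'.2
        have hpp : p = p₀ := core p p₀ g g₀ hg.1 hg₀.1 hzz
        have hpp' : p' = p₀ := core p' p₀ g' g₀ hg'.1 hg₀.1 hzz'
        subst hpp
        subst hpp'
        have : g = g' := stab_inj hg₀.1 he
        rw [this]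
    have himg : ((Pm ×ˢ Gm).image φ).card ≤ NB.ncard := by
      rw [Set.ncard_eq_toFinset_card _ hNBf]
      refine Finset.card_le_card ?_
      intro a ha
      obtain ⟨⟨p, g⟩, hz, rfl⟩ := Finset.mem_image.mp ha
      rw [Finset.mem_product] at hz
      have hg : g ∈ GG F m := (Set.Finite.mem_toFinset _).mp hz.2
      have hp : mm p = m := (Finset.mem_filter.mp hz.1).2
      rw [Set.Finite.mem_toFinset]
      refine ⟨hACT F n m (BB p) g (hp ▸ hBd p) hg, p.1.1, p.1.2, ?_⟩
      exact (charpoly_conj hg.1).trans (hch p)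
    have hfinal : Pm.card * Gm.card ≤ k * NB.ncard := by
      rw [← Finset.card_product]
      exact hcard.trans (Nat.mul_le_mul_left k himg)
    rw [hGc, ← mul_div_assoc, le_div_iff₀ (by exact_mod_cast hGpos)]
    exact_mod_cast hfinal
  calc ∑ᶠ f ∈ S, ((T f).ncard : ℝ) = (Fintype.card (Σ f : ↥S, ↥(T f.1)) : ℝ) := hsum
    _ = ∑ m ∈ Finset.range (n + 1),
        ((Finset.univ.filter (fun p : (Σ f : ↥S, ↥(T f.1)) => mm p = m)).card : ℝ) := by
        rw [← Finset.card_univ, Finset.card_eq_sum_card_fiberwise (f := mm)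
          (t := Finset.range (n + 1))]
        · push_cast
          rfl
        · intro p _
          exact Finset.mem_coe.mpr (Finset.mem_range.mpr (Nat.lt_succ_of_le (hmn p)))
    _ ≤ ∑ m ∈ Finset.range (n + 1),
        k * (({B : Matrix (Fin 3) (Fin 3) F[X] | Bd n m B ∧
          ∃ f ∈ S, (AA F[X] * B).charpoly = cubP f}.ncard : ℝ) / (GG F m).ncard) :=
        Finset.sum_le_sum hcount
    _ = _ := by rw [Finset.mul_sum]

end Pool.AVR
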